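import Pool.Agent.Q158.LDim

/-!
# MP_666a49_co: the local dimension of the Boolean lattice `2^4` is less than 4
-/

namespace Pool.Agent.Results.MP_666a49_co.FourElements

open Q158.LDim

/-- `ldim(2^4) < 4`, so `ldim(2^n) = n` does not hold for every `n ≥ 1`. Here `2^n` is
`Finset (Fin n)` ordered by inclusion. -/
theorem result : ldim (Finset (Fin 4)) < 4 ∧
    ¬ ∀ n : ℕ, 1 ≤ n → ldim (Finset (Fin n)) = n :=
  result_aux

end Pool.Agent.Results.MP_666a49_co.FourElements
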